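import Pool.Agent.W845.CP.Base2

/-! CP-CONN2: drift of the functional HH (part of helper845's project for MP_2b201f_pr). -/

set_option autoImplicit false

namespace Pool.Agent.W397.CPConn2

open Pool.Agent.W845.CP Finset

lemma sum_insert_le' {α : Type} [DecidableEq α] (f : α → ℝ) (hf : ∀ a, 0 ≤ f a) (a : α)
    (s : Finset α) : ∑ z ∈ insert a s, f z ≤ f a + ∑ z ∈ s, f z := by
  by_cases ha : a ∈ s
  · rw [Finset.insert_eq_self.2 ha]
    linarith [hf a]
  · rw [Finset.sum_insert ha]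

lemma sum_pair_le {α : Type} [DecidableEq α] (f : α → ℝ) (hf : ∀ a, 0 ≤ f a) (a b : α) :
    ∑ z ∈ ({a, b} : Finset α), f z ≤ f a + f b := by
  have := sum_insert_le' f hf a {b}
  rwa [Finset.sum_singleton] at this

lemma mem_kids {k : ℕ → ℕ} {n x y : ℕ} : y ∈ kids k n x ↔ y / 2 ^ k n = x := by
  unfold kids
  rw [Finset.mem_Ico, Nat.div_eq_iff (by positivity)]
  have h1 : 0 < 2 ^ k n := by positivity
  constructor
  · rintro ⟨h2, h3⟩
    refine ⟨h2, ?_⟩
    have : (x + 1) * 2 ^ k n = x * 2 ^ k n + 2 ^ k n := by ring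
    omega
  · rintro ⟨h2, h3⟩
    refine ⟨h2, ?_⟩
    have : (x + 1) * 2 ^ k n = x * 2 ^ k n + 2 ^ k n := by ring
    omega

lemma gt_nonneg (k : ℕ → ℕ) (n x : ℕ) (v : Vx) : 0 ≤ gt k n x v := by
  cases v with
  | h _ _ _ => exact le_rfl
  | t n' i y =>
    show 0 ≤ if n' = n ∧ i ≤ k n ∧ y / 2 ^ i = x then (2 / 19 : ℝ) ^ (k n - i) else 0
    split_ifs <;> positivity
  | p _ _ _ => exact le_rfl

lemma gt_t (k : ℕ → ℕ) (n x n' i y : ℕ) : gt k n x (Vx.t n' i y) =
    if n' = n ∧ i ≤ k n ∧ y / 2 ^ i = x then (2 / 19 : ℝ) ^ (k n - i) else 0 := rfl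

lemma gt_h (k : ℕ → ℕ) (n x n' i y : ℕ) : gt k n x (Vx.h n' i y) = 0 := rfl

lemma gt_p (k : ℕ → ℕ) (n x n' i y : ℕ) : gt k n x (Vx.p n' i y) = 0 := rfl

/-- pointwise bound -/
noncomputable def q (k : ℕ → ℕ) (lam : ℝ) (n x : ℕ) (v : Vx) : ℝ :=
  (∑ y ∈ kids k n x, if v = Vx.t n (k n) y then (-1 + 2 / 19 * lam) else 0) +
  (∑ y ∈ kids k n x, if v = Vx.p n 0 y then lam else 0) +
  (if v = Vx.h n x 0 then lam * (2 / 19 : ℝ) ^ k n else 0)

lemma q_t (k : ℕ → ℕ) (lam : ℝ) (n x n' i y : ℕ) : q k lam n x (Vx.t n' i y) =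
    if n' = n ∧ i = k n ∧ y / 2 ^ k n = x then (-1 + 2 / 19 * lam) else 0 := by
  unfold q
  have h1 : ∀ y', (Vx.t n' i y = Vx.p n 0 y') ↔ False := fun y' => by simp
  have h2 : (Vx.t n' i y = Vx.h n x 0) ↔ False := by simp
  simp only [h1, h2, if_false, Finset.sum_const_zero, add_zero, Vx.t.injEq]
  by_cases hc : n' = n ∧ i = k n ∧ y / 2 ^ k n = x
  · rw [if_pos hc]
    rw [Finset.sum_eq_single y]
    · rw [if_pos ⟨hc.1, hc.2.1, rfl⟩]
    · intro b _ hb
      rw [if_neg]
      rintro ⟨_, _, h3⟩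
      exact hb h3.symm
    · intro hy
      exact absurd (mem_kids.2 hc.2.2) hy
  · rw [if_neg hc]
    apply Finset.sum_eq_zero
    intro b hb
    rw [if_neg]
    rintro ⟨h3, h4, h5⟩
    subst h5
    exact hc ⟨h3, h4, mem_kids.1 hb⟩

lemma q_p (k : ℕ → ℕ) (lam : ℝ) (n x n' j y : ℕ) : q k lam n x (Vx.p n' j y) =
    if n' = n ∧ j = 0 ∧ y / 2 ^ k n = x then lam else 0 := by
  unfold q
  have h1 : ∀ y', (Vx.p n' j y = Vx.t n (k n) y') ↔ False := fun y' => by simp
  have h2 : (Vx.p n' j y = Vx.h n x 0) ↔ False := by simp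
  simp only [h1, h2, if_false, Finset.sum_const_zero, add_zero, zero_add, Vx.p.injEq]
  by_cases hc : n' = n ∧ j = 0 ∧ y / 2 ^ k n = x
  · rw [if_pos hc]
    rw [Finset.sum_eq_single y]
    · rw [if_pos ⟨hc.1, hc.2.1, rfl⟩]
    · intro b _ hb
      rw [if_neg]
      rintro ⟨_, _, h3⟩
      exact hb h3.symm
    · intro hy
      exact absurd (mem_kids.2 hc.2.2) hy
  · rw [if_neg hc]
    apply Finset.sum_eq_zero
    intro b hb
    rw [if_neg]
    rintro ⟨h3, h4, h5⟩
    subst h5
    exact hc ⟨h3, h4, mem_kids.1 hb⟩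

lemma q_h (k : ℕ → ℕ) (lam : ℝ) (n x n' y i : ℕ) : q k lam n x (Vx.h n' y i) =
    if n' = n ∧ y = x ∧ i = 0 then lam * (2 / 19 : ℝ) ^ k n else 0 := by
  unfold q
  have h1 : ∀ y', (Vx.h n' y i = Vx.t n (k n) y') ↔ False := fun y' => by simp
  have h2 : ∀ y', (Vx.h n' y i = Vx.p n 0 y') ↔ False := fun y' => by simp
  simp only [h1, h2, if_false, Finset.sum_const_zero, zero_add, Vx.h.injEq]

lemma bound (m k l : ℕ → ℕ) (hk : ∀ n, 1 ≤ k n) {lam : ℝ} (hl : 0 < lam) (hl20 : lam ≤ 1 / 20)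
    (n x : ℕ) (v : Vx) :
    -(gt k n x v) + lam * ∑ z ∈ nbx m k l v, gt k n x z ≤ q k lam n x v := by
  have gnn := gt_nonneg k n x
  cases v with
  | h n' y i =>
    rw [q_h, gt_h]
    have hsum : ∑ z ∈ nbx m k l (Vx.h n' y i), gt k n x z ≤
        if n' = n ∧ y = x ∧ i = 0 then (2 / 19 : ℝ) ^ k n else 0 := by
      show ∑ z ∈ (if i < m n' then
        ((Finset.range (m n')).erase i).image (Vx.h n' y) ∪
          (if i = 0 then insert (Vx.t n' 0 y) (upv l n' y) else ∅) else ∅), gt k n x z ≤ _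
      have hR : (0 : ℝ) ≤ if n' = n ∧ y = x ∧ i = 0 then (2 / 19 : ℝ) ^ k n else 0 := by
        split_ifs <;> positivity
      by_cases him : i < m n'
      · rw [if_pos him]
        have h1 : ∑ z ∈ ((Finset.range (m n')).erase i).image (Vx.h n' y) ∪
          (if i = 0 then insert (Vx.t n' 0 y) (upv l n' y) else ∅), gt k n x z ≤
            ∑ z ∈ ((Finset.range (m n')).erase i).image (Vx.h n' y), gt k n x z +
            ∑ z ∈ (if i = 0 then insert (Vx.t n' 0 y) (upv l n' y) else ∅), gt k n x z := by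
          rw [← Finset.sum_union_inter]
          have : 0 ≤ ∑ z ∈ ((Finset.range (m n')).erase i).image (Vx.h n' y) ∩
            (if i = 0 then insert (Vx.t n' 0 y) (upv l n' y) else ∅), gt k n x z :=
            Finset.sum_nonneg (fun z _ => gnn z)
          linarith
        have h2 : ∑ z ∈ ((Finset.range (m n')).erase i).image (Vx.h n' y), gt k n x z = 0 := by
          apply Finset.sum_eq_zero
          intro z hz
          rw [Finset.mem_image] at hz
          obtain ⟨j, _, rfl⟩ := hz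
          rfl
        rw [h2, zero_add] at h1
        refine h1.trans ?_
        by_cases hi : i = 0
        · rw [if_pos hi]
          have h3 := sum_insert_le' (gt k n x) gnn (Vx.t n' 0 y) (upv l n' y)
          have h4 : ∑ z ∈ upv l n' y, gt k n x z = 0 := by
            apply Finset.sum_eq_zero
            intro z hz
            cases n' with
            | zero => simp [upv] at hz
            | succ n'' =>
              simp only [upv, Finset.mem_singleton] at hz
              rw [hz]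
              rfl
          rw [h4, add_zero] at h3
          refine h3.trans ?_
          rw [gt_t, pow_zero, Nat.div_one, Nat.sub_zero]
          apply le_of_eq
          simp [hi]
        · rw [if_neg hi, Finset.sum_empty]
          exact hR
      · rw [if_neg him, Finset.sum_empty]
        exact hR
    have h1 := mul_le_mul_of_nonneg_left hsum hl.le
    rw [mul_ite, mul_zero] at h1
    linarith
  | t n' i y =>
    rw [q_t, gt_t]
    show -(if n' = n ∧ i ≤ k n ∧ y / 2 ^ i = x then (2 / 19 : ℝ) ^ (k n - i) else 0) +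
      lam * ∑ z ∈ (if i ≤ k n' then
        insert (if i = 0 then Vx.h n' y 0 else Vx.t n' (i - 1) (y / 2))
          (if i < k n' then {Vx.t n' (i + 1) (2 * y), Vx.t n' (i + 1) (2 * y + 1)}
            else {Vx.p n' 0 y})
      else ∅), gt k n x z ≤ _
    by_cases hik : i ≤ k n'
    swap
    · rw [if_neg (c := i ≤ k n') hik, Finset.sum_empty, mul_zero]
      rw [if_neg (c := n' = n ∧ i ≤ k n ∧ y / 2 ^ i = x) (by
        rintro ⟨rfl, h2, _⟩
        exact hik h2)]
      rw [if_neg (by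
        rintro ⟨rfl, h2, _⟩
        omega)]
      simp
    rw [if_pos (c := i ≤ k n') hik]
    -- parent
    have hparent : gt k n x (if i = 0 then Vx.h n' y 0 else Vx.t n' (i - 1) (y / 2)) ≤
        if n' = n ∧ y / 2 ^ i = x then (2 / 19 : ℝ) ^ (k n - i + 1) else 0 := by
      by_cases hi : i = 0
      · rw [if_pos hi, gt_h]
        split_ifs <;> positivity
      · rw [if_neg hi, gt_t]
        have e1 : y / 2 / 2 ^ (i - 1) = y / 2 ^ i := by
          rw [Nat.div_div_eq_div_mul, ← pow_succ']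
          congr 2
          omega
        rw [e1]
        by_cases hc : n' = n ∧ y / 2 ^ i = x
        · obtain ⟨rfl, hc2⟩ := hc
          rw [if_pos ⟨rfl, by omega, hc2⟩, if_pos ⟨rfl, hc2⟩]
          apply le_of_eq
          congr 1
          omega
        · rw [if_neg (fun h => hc ⟨h.1, h.2.2⟩), if_neg hc]
    have hchild : ∑ z ∈ (if i < k n' then
        ({Vx.t n' (i + 1) (2 * y), Vx.t n' (i + 1) (2 * y + 1)} : Finset Vx)
            else {Vx.p n' 0 y}), gt k n x z ≤
        if n' = n ∧ i < k n ∧ y / 2 ^ i = x then 2 * (2 / 19 : ℝ) ^ (k n - i - 1) else 0 := by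
      by_cases hi : i < k n'
      · rw [if_pos hi]
        refine (sum_pair_le (gt k n x) gnn _ _).trans ?_
        rw [gt_t, gt_t]
        have e1 : 2 * y / 2 ^ (i + 1) = y / 2 ^ i := by
          rw [pow_succ', ← Nat.div_div_eq_div_mul, Nat.mul_div_cancel_left _ (by norm_num)]
        have e2 : (2 * y + 1) / 2 ^ (i + 1) = y / 2 ^ i := by
          rw [pow_succ', ← Nat.div_div_eq_div_mul]
          congr 1
          omega
        rw [e1, e2]
        by_cases hc : n' = n ∧ y / 2 ^ i = x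
        · obtain ⟨rfl, hc2⟩ := hc
          rw [if_pos ⟨rfl, by omega, hc2⟩, if_pos ⟨rfl, hi, hc2⟩]
          have e3 : k n' - (i + 1) = k n' - i - 1 := by omega
          rw [e3]
          linarith
        · rw [if_neg (fun h => hc ⟨h.1, h.2.2⟩), if_neg (fun h => hc ⟨h.1, h.2.2⟩), add_zero]
      · rw [if_neg hi, Finset.sum_singleton, gt_p]
        split_ifs <;> positivity
    have hsum := (sum_insert_le' (gt k n x) gnn
      (if i = 0 then Vx.h n' y 0 else Vx.t n' (i - 1) (y / 2))
      (if i < k n' then ({Vx.t n' (i + 1) (2 * y), Vx.t n' (i + 1) (2 * y + 1)} : Finset Vx)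
            else {Vx.p n' 0 y})).trans (add_le_add hparent hchild)
    have hsum' := mul_le_mul_of_nonneg_left hsum hl.le
    refine (add_le_add le_rfl hsum').trans ?_
    by_cases hc : n' = n ∧ y / 2 ^ i = x
    · obtain ⟨rfl, hc2⟩ := hc
      rw [if_pos (c := n' = n' ∧ i ≤ k n' ∧ y / 2 ^ i = x) ⟨rfl, hik, hc2⟩,
        if_pos (c := n' = n' ∧ y / 2 ^ i = x) ⟨rfl, hc2⟩]
      by_cases hi : i < k n'
      · rw [if_pos (c := n' = n' ∧ i < k n' ∧ y / 2 ^ i = x) ⟨rfl, hi, hc2⟩,
          if_neg (c := n' = n' ∧ i = k n' ∧ y / 2 ^ k n' = x) (by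
            rintro ⟨_, h2, _⟩
            omega)]
        obtain ⟨r, hr⟩ : ∃ r, k n' - i = r + 1 := ⟨k n' - i - 1, by omega⟩
        rw [hr, Nat.add_sub_cancel, pow_succ, pow_succ, pow_succ]
        have hp : (0 : ℝ) < (2 / 19 : ℝ) ^ r := by positivity
        set g := (2 / 19 : ℝ) ^ r with hg
        have e3 : -(g * (2 / 19)) + lam * (g * (2 / 19) * (2 / 19) + 2 * g) =
            -(g * (2 / 19)) + lam * g * (4 / 361 + 2) := by ring
        rw [e3]
        have h3 : lam * g ≤ 1 / 20 * g := mul_le_mul_of_nonneg_right hl20 hp.le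
        nlinarith
      · have hik' : i = k n' := by omega
        subst hik'
        rw [if_neg (c := n' = n' ∧ k n' < k n' ∧ y / 2 ^ k n' = x) (by
          rintro ⟨_, h2, _⟩
          omega), if_pos ⟨rfl, rfl, hc2⟩]
        rw [Nat.sub_self, pow_zero, zero_add, pow_one]
        linarith
    · rw [if_neg (c := n' = n ∧ i ≤ k n ∧ y / 2 ^ i = x) (fun h => hc ⟨h.1, h.2.2⟩),
        if_neg (c := n' = n ∧ y / 2 ^ i = x) hc,
        if_neg (c := n' = n ∧ i < k n ∧ y / 2 ^ i = x) (fun h => hc ⟨h.1, h.2.2⟩)]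
      rw [if_neg (by
        rintro ⟨h1, h2, h3⟩
        rw [← h2] at h3
        exact hc ⟨h1, h3⟩)]
      simp
  | p n' j y =>
    rw [q_p, gt_p]
    show -(0 : ℝ) + lam * ∑ z ∈ (if j < l n' then
        ({(if j = 0 then Vx.t n' (k n') y else Vx.p n' (j - 1) y),
         (if j + 1 < l n' then Vx.p n' (j + 1) y else Vx.h (n' + 1) y 0)} : Finset Vx)
      else ∅), gt k n x z ≤ _
    have hR : (0 : ℝ) ≤ if n' = n ∧ j = 0 ∧ y / 2 ^ k n = x then lam else 0 := by
      split_ifs
      · exact hl.le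
      · exact le_rfl
    by_cases hj : j < l n'
    · rw [if_pos hj]
      have h1 := sum_pair_le (gt k n x) gnn (if j = 0 then Vx.t n' (k n') y else Vx.p n' (j - 1) y)
        (if j + 1 < l n' then Vx.p n' (j + 1) y else Vx.h (n' + 1) y 0)
      have h2 : gt k n x (if j + 1 < l n' then Vx.p n' (j + 1) y else Vx.h (n' + 1) y 0) = 0 := by
        split_ifs <;> rfl
      rw [h2, add_zero] at h1
      have h3 := mul_le_mul_of_nonneg_left h1 hl.le
      rw [neg_zero, zero_add]
      refine h3.trans ?_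
      by_cases hj0 : j = 0
      · rw [if_pos hj0, gt_t]
        by_cases hn : n' = n
        · subst hn
          by_cases hy : y / 2 ^ k n' = x
          · rw [if_pos ⟨rfl, le_rfl, hy⟩, if_pos ⟨rfl, hj0, hy⟩]
            simp
          · rw [if_neg (fun h => hy h.2.2), if_neg (fun h => hy h.2.2)]
            simp
        · rw [if_neg (fun h => hn h.1), if_neg (fun h => hn h.1)]
          simp
      · rw [if_neg hj0, gt_p, mul_zero]
        exact hR
    · rw [if_neg hj, Finset.sum_empty]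
      simpa using hR

lemma sum_q (k : ℕ → ℕ) (lam : ℝ) (n x : ℕ) (A : Finset Vx) :
    ∑ v ∈ A, q k lam n x v = (-1 + 2 / 19 * lam) * nlf k n x A +
      ∑ y ∈ kids k n x, (if Vx.p n 0 y ∈ A then lam else 0) +
      lam * (2 / 19 : ℝ) ^ k n * (if Vx.h n x 0 ∈ A then 1 else 0) := by
  unfold q
  rw [Finset.sum_add_distrib, Finset.sum_add_distrib]
  congr 1
  · congr 1
    · rw [Finset.sum_comm]
      have h1 : ∀ y ∈ kids k n x,
          (∑ v ∈ A, if v = Vx.t n (k n) y then (-1 + 2 / 19 * lam) else 0) =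
          if Vx.t n (k n) y ∈ A then (-1 + 2 / 19 * lam) else 0 := by
        intro y _
        rw [Finset.sum_ite_eq']
      rw [Finset.sum_congr rfl h1, ← Finset.sum_filter, Finset.sum_const, nsmul_eq_mul]
      unfold nlf
      ring
    · rw [Finset.sum_comm]
      refine Finset.sum_congr rfl (fun y _ => ?_)
      rw [Finset.sum_ite_eq']
  · rw [Finset.sum_ite_eq']
    split_ifs <;> ring

theorem conn2 (_ : St_PATH) (hPB : St_PB) : St_CONN2 := by
  intro m k l hm hk hl1 lam hl hl20 n x A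
  have hO1 : ∀ y (B : Finset Vx), 0 ≤ O1 l lam n y B := fun y B =>
    (hPB m k l hm hl1 lam hl (by linarith) n y B).1.1
  constructor
  · unfold HH
    refine add_nonneg (Finset.sum_nonneg (fun v _ => gt_nonneg k n x v)) ?_
    exact mul_nonneg hl.le (Finset.sum_nonneg (fun y _ => hO1 y A))
  · have h1 : gen (nbx m k l) lam (HH k l lam n x) A =
        gen (nbx m k l) lam (fun B => ∑ v ∈ B, gt k n x v) A +
        lam * ∑ y ∈ kids k n x, gen (nbx m k l) lam (O1 l lam n y) A := by
      have e1 : HH k l lam n x = fun B => (∑ v ∈ B, gt k n x v) +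
          lam * ∑ y ∈ kids k n x, O1 l lam n y B := rfl
      rw [e1, gen_add, gen_smul, gen_sum]
    rw [h1]
    have h2 := gen_additive_le (nbx m k l) lam hl.le (gt k n x) (gt_nonneg k n x) A
    have h3 : ∑ v ∈ A, (-(gt k n x v) + lam * ∑ z ∈ nbx m k l v, gt k n x z) ≤
        ∑ v ∈ A, q k lam n x v :=
      Finset.sum_le_sum (fun v _ => bound m k l hk hl hl20 n x v)
    rw [sum_q] at h3
    have h4 : ∑ y ∈ kids k n x, gen (nbx m k l) lam (O1 l lam n y) A ≤
        ∑ y ∈ kids k n x, (-(if Vx.p n 0 y ∈ A then 1 else 0) +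
          (if Vx.t n (k n) y ∈ A then 2 * lam else 0) +
          (if Vx.h (n + 1) y 0 ∈ A then lam * oo (l n) lam else 0)) :=
      Finset.sum_le_sum (fun y _ => (hPB m k l hm hl1 lam hl (by linarith) n y A).2.1)
    have h5 : ∑ y ∈ kids k n x, (-(if Vx.p n 0 y ∈ A then (1 : ℝ) else 0) +
          (if Vx.t n (k n) y ∈ A then 2 * lam else 0) +
          (if Vx.h (n + 1) y 0 ∈ A then lam * oo (l n) lam else 0)) =
        -(∑ y ∈ kids k n x, (if Vx.p n 0 y ∈ A then (1 : ℝ) else 0)) +
          nlf k n x A * (2 * lam) + nch k n x A * (lam * oo (l n) lam) := by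
      rw [Finset.sum_add_distrib, Finset.sum_add_distrib, Finset.sum_neg_distrib]
      congr 1
      · congr 1
        rw [← Finset.sum_filter, Finset.sum_const, nsmul_eq_mul]
        rfl
      · rw [← Finset.sum_filter, Finset.sum_const, nsmul_eq_mul]
        rfl
    rw [h5] at h4
    have h6 : ∑ y ∈ kids k n x, (if Vx.p n 0 y ∈ A then lam else 0) =
        lam * ∑ y ∈ kids k n x, (if Vx.p n 0 y ∈ A then (1 : ℝ) else 0) := by
      rw [Finset.mul_sum]
      refine Finset.sum_congr rfl (fun y _ => ?_)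
      split_ifs <;> ring
    rw [h6] at h3
    have h7 := mul_le_mul_of_nonneg_left h4 hl.le
    set Pn := ∑ y ∈ kids k n x, (if Vx.p n 0 y ∈ A then (1 : ℝ) else 0) with hPn
    have hn0 : (0 : ℝ) ≤ nlf k n x A := Nat.cast_nonneg _
    have h8 : (-1 + 2 / 19 * lam) * (nlf k n x A : ℝ) + lam * (nlf k n x A * (2 * lam)) ≤
        -(1 / 2 * (nlf k n x A : ℝ)) := by
      have h9 : -1 + 2 / 19 * lam + 2 * lam ^ 2 ≤ -(1 / 2) := by nlinarith
      have := mul_le_mul_of_nonneg_right h9 hn0
      linarith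
    have e5 : lam * (-Pn + nlf k n x A * (2 * lam) + nch k n x A * (lam * oo (l n) lam)) =
        -(lam * Pn) + lam * (nlf k n x A * (2 * lam)) + lam ^ 2 * oo (l n) lam * nch k n x A := by
      ring
    rw [e5] at h7
    linarith

end Pool.Agent.W397.CPConn2
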