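import Pool.Agent.W845.CP.Base2

/-! CP-HUP: drift of the hub potential (part of helper845's project for MP_2b201f_pr). -/

set_option autoImplicit false

namespace Pool.Agent.W397.CPHup

open Pool.Agent.W845.CP Finset

variable {V : Type} [DecidableEq V]

lemma sum_deaths (K : Finset V) (G : ℕ → ℝ) (A : Finset V) :
    ∑ x ∈ A, (G (A ∩ K).card - G ((A.erase x) ∩ K).card) =
      (A ∩ K).card * (G (A ∩ K).card - G ((A ∩ K).card - 1)) := by
  have h1 : ∀ x ∈ A, (G (A ∩ K).card - G ((A.erase x) ∩ K).card) =
      if x ∈ K then (G (A ∩ K).card - G ((A ∩ K).card - 1)) else 0 := by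
    intro x hx
    rw [Finset.erase_inter]
    by_cases hxK : x ∈ K
    · rw [if_pos hxK, Finset.card_erase_of_mem (Finset.mem_inter.2 ⟨hx, hxK⟩)]
    · rw [if_neg hxK, Finset.erase_eq_of_notMem (fun hc => hxK (Finset.mem_inter.1 hc).2),
        sub_self]
  rw [Finset.sum_congr rfl h1, Finset.sum_ite_mem, Finset.sum_const, nsmul_eq_mul]

lemma sum_inf (K : Finset V) (G : ℕ → ℝ) (A n : Finset V) :
    ∑ y ∈ n, (G (A ∩ K).card - G ((insert y A) ∩ K).card) =
      (n ∩ (K \ A)).card * (G (A ∩ K).card - G ((A ∩ K).card + 1)) := by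
  have h1 : ∀ y ∈ n, (G (A ∩ K).card - G ((insert y A) ∩ K).card) =
      if y ∈ K \ A then (G (A ∩ K).card - G ((A ∩ K).card + 1)) else 0 := by
    intro y _
    by_cases hy : y ∈ K \ A
    · rw [if_pos hy]
      rw [Finset.mem_sdiff] at hy
      rw [Finset.insert_inter_of_mem hy.1, Finset.card_insert_of_notMem
        (fun hc => hy.2 (Finset.mem_inter.1 hc).1)]
    · rw [if_neg hy]
      rw [Finset.mem_sdiff, not_and_or, not_not] at hy
      rcases hy with hy | hy
      · rw [Finset.insert_inter_of_notMem hy, sub_self]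
      · rw [Finset.insert_eq_self.2 hy, sub_self]
  rw [Finset.sum_congr rfl h1, Finset.sum_ite_mem, Finset.sum_const, nsmul_eq_mul]

lemma sum_nb {nb : V → Finset V} {K Ex : Finset V} {v : V} (hd : Disjoint K Ex)
    (hK : ∀ x ∈ K, nb x = K.erase x ∪ (if x = v then Ex else ∅))
    (hout : ∀ y, y ∉ K → nb y ∩ K = if y ∈ Ex then {v} else ∅) (A : Finset V) :
    ∑ x ∈ A, (((nb x ∩ (K \ A)).card : ℕ) : ℝ) =
      (A ∩ K).card * ((K.card : ℝ) - (A ∩ K).card) +
        (A ∩ Ex).card * (if v ∈ A then 0 else 1) := by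
  have hcard : ((K \ A).card : ℝ) = (K.card : ℝ) - (A ∩ K).card := by
    have := Finset.card_sdiff_add_card_inter K A
    rw [Finset.inter_comm A K]
    have h2 : ((K \ A).card : ℝ) + (K ∩ A).card = K.card := by exact_mod_cast this
    linarith
  have h1 : ∀ x ∈ A, (((nb x ∩ (K \ A)).card : ℕ) : ℝ) =
      (if x ∈ K then ((K.card : ℝ) - (A ∩ K).card) else 0) +
        (if x ∈ Ex then (if v ∈ A then (0 : ℝ) else 1) else 0) := by
    intro x hx
    by_cases hxK : x ∈ K
    · have hxE : x ∉ Ex := fun hc => (Finset.disjoint_left.1 hd hxK) hc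
      rw [if_pos hxK, if_neg hxE, add_zero, ← hcard, hK x hxK]
      congr 2
      ext y
      simp only [Finset.mem_inter, Finset.mem_union, Finset.mem_erase, Finset.mem_sdiff]
      constructor
      · exact fun h => h.2
      · intro h
        refine ⟨Or.inl ⟨?_, h.1⟩, h⟩
        rintro rfl
        exact h.2 hx
    · rw [if_neg hxK, zero_add]
      have h2 : nb x ∩ (K \ A) = (nb x ∩ K) \ A := by
        rw [Finset.inter_sdiff_assoc]
      rw [h2, hout x hxK]
      by_cases hxE : x ∈ Ex
      · rw [if_pos hxE, if_pos hxE]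
        by_cases hvA : v ∈ A
        · rw [if_pos hvA]
          simp [hvA]
        · rw [if_neg hvA]
          have : ({v} : Finset V) \ A = {v} := by
            rw [Finset.sdiff_eq_self_iff_disjoint, Finset.disjoint_singleton_left]
            exact hvA
          rw [this]
          simp
      · rw [if_neg hxE, if_neg hxE]
        simp
  rw [Finset.sum_congr rfl h1, Finset.sum_add_distrib, Finset.sum_ite_mem, Finset.sum_ite_mem,
    Finset.sum_const, Finset.sum_const, nsmul_eq_mul, nsmul_eq_mul]

/-- the decomposition of the generator -/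
lemma gen_split {nb : V → Finset V} {lam : ℝ} {K Ex : Finset V} {v : V}
    (hd : Disjoint K Ex)
    (hK : ∀ x ∈ K, nb x = K.erase x ∪ (if x = v then Ex else ∅))
    (hout : ∀ y, y ∉ K → nb y ∩ K = if y ∈ Ex then {v} else ∅) (G : ℕ → ℝ) (S : Finset V → ℝ)
    (hS : ∀ A, ∀ x ∈ K, S (insert x A) = S A ∧ S (A.erase x) = S A) (A : Finset V) :
    gen nb lam (fun B => 1 - G (B ∩ K).card * (1 - S B)) A =
      G (A ∩ K).card * gen nb lam S A +
      (1 - S A) * ((A ∩ K).card * (G (A ∩ K).card - G ((A ∩ K).card - 1)) +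
        lam * (((A ∩ K).card * ((K.card : ℝ) - (A ∩ K).card) +
        (A ∩ Ex).card * (if v ∈ A then 0 else 1)) *
          (G (A ∩ K).card - G ((A ∩ K).card + 1)))) := by
  set c := (A ∩ K).card with hc
  have hdeath : ∀ x ∈ A, (1 - G ((A.erase x) ∩ K).card * (1 - S (A.erase x))) -
      (1 - G c * (1 - S A)) =
      G c * (S (A.erase x) - S A) + (1 - S A) * (G c - G ((A.erase x) ∩ K).card) := by
    intro x hx
    by_cases hxK : x ∈ K
    · rw [(hS A x hxK).2]
      ring
    · have : (A.erase x) ∩ K = A ∩ K := by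
        rw [Finset.erase_inter, Finset.erase_eq_of_notMem
          (fun hc => hxK (Finset.mem_inter.1 hc).2)]
      rw [this, ← hc]
      ring
  have hinf : ∀ y : V, (1 - G ((insert y A) ∩ K).card * (1 - S (insert y A))) -
      (1 - G c * (1 - S A)) =
      G c * (S (insert y A) - S A) + (1 - S A) * (G c - G ((insert y A) ∩ K).card) := by
    intro y
    by_cases hyK : y ∈ K
    · rw [(hS A y hyK).1]
      ring
    · have : (insert y A) ∩ K = A ∩ K := Finset.insert_inter_of_notMem hyK
      rw [this, ← hc]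
      ring
  unfold gen
  rw [Finset.sum_congr rfl hdeath, Finset.sum_congr rfl (fun x (_ : x ∈ A) =>
    Finset.sum_congr rfl (fun y (_ : y ∈ nb x) => hinf y))]
  simp_rw [Finset.sum_add_distrib, ← Finset.mul_sum]
  rw [hc, sum_deaths]
  simp_rw [sum_inf]
  rw [← Finset.sum_mul, sum_nb hd hK hout]
  ring

lemma gam_bounds {lam : ℝ} (hl : 0 < lam) (hseq : St_SEQ) {m : ℕ} (hm : 1 ≤ m) :
    gam lam m 0 = 1 ∧ (∀ c, 0 ≤ gam lam m c) ∧ (∀ c, gam lam m c ≤ 1) ∧
    (∀ c, 1 ≤ c → c ≤ m →
      gam lam m (c - 1) - gam lam m c = del lam m c / (c * dsum lam m 0)) ∧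
    (∀ c, c < m → gam lam m c ≤ (m - c) * del lam m (c + 1) / ((c + 1) * dsum lam m 0)) := by
  obtain ⟨-, -, hpos, hanti, -, -, -, hd0, -, -, -⟩ := hseq.1 lam hl.le m hm
  have hterm : ∀ j ∈ Ioc 0 m, 0 ≤ del lam m j / (j : ℝ) := by
    intro j hj
    rw [Finset.mem_Ioc] at hj
    exact div_nonneg (hpos j hj.1 hj.2).le (Nat.cast_nonneg j)
  have hsub : ∀ c, Ioc c m ⊆ Ioc 0 m := fun c => Finset.Ioc_subset_Ioc_left (Nat.zero_le c)
  have hnn : ∀ c, 0 ≤ dsum lam m c := fun c =>
    Finset.sum_nonneg (fun j hj => hterm j (hsub c hj))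
  have hle : ∀ c, dsum lam m c ≤ dsum lam m 0 := fun c =>
    Finset.sum_le_sum_of_subset_of_nonneg (hsub c) (fun j hj _ => hterm j hj)
  refine ⟨div_self hd0.ne', fun c => div_nonneg (hnn c) hd0.le,
    fun c => (div_le_one hd0).2 (hle c), ?_, ?_⟩
  · intro c hc1 hcm
    unfold gam
    have h1 : dsum lam m (c - 1) = del lam m c / (c : ℝ) + dsum lam m c := by
      unfold dsum
      have h2 : Ioc (c - 1) m = insert c (Ioc c m) := by
        ext j
        simp only [Finset.mem_Ioc, Finset.mem_insert]
        omega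
      rw [h2, Finset.sum_insert (by simp)]
    rw [h1, ← sub_div, add_sub_cancel_right, div_div]
  · intro c hcm
    unfold gam
    have hanti' : ∀ d, c + 1 + d ≤ m → del lam m (c + 1 + d) ≤ del lam m (c + 1) := by
      intro d
      induction d with
      | zero =>
        intro _
        exact le_rfl
      | succ d ih =>
        intro hd
        exact (hanti (c + 1 + d) (by omega) (by omega)).trans (ih (by omega))
    have h1 : dsum lam m c ≤ (m - c) * (del lam m (c + 1) / (c + 1)) := by
      unfold dsum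
      have h2 : ∀ j ∈ Ioc c m, del lam m j / (j : ℝ) ≤ del lam m (c + 1) / ((c : ℝ) + 1) := by
        intro j hj
        rw [Finset.mem_Ioc] at hj
        obtain ⟨d, rfl⟩ : ∃ d, j = c + 1 + d := ⟨j - (c + 1), by omega⟩
        have h3 := hanti' d hj.2
        have h4 := (hpos (c + 1) (by omega) (by omega)).le
        push_cast
        exact div_le_div₀ h4 h3 (by positivity) (by
          have : (0 : ℝ) ≤ d := Nat.cast_nonneg d
          linarith)
      have h3 := Finset.sum_le_card_nsmul _ _ _ h2
      rw [Nat.card_Ioc, nsmul_eq_mul, Nat.cast_sub hcm.le] at h3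
      exact h3
    calc dsum lam m c / dsum lam m 0 ≤ ((m - c) * (del lam m (c + 1) / (c + 1))) / dsum lam m 0 :=
          div_le_div_of_nonneg_right h1 hd0.le
      _ = _ := by
          field_simp

theorem hup (hseq : St_SEQ) : St_HUP := by
  intro V _ nb lam hl hl20 K Ex v hv hd hK hout S e hS01 he hSinv hSgen A
  set m := K.card with hm
  have hm1 : 1 ≤ m := Finset.card_pos.2 ⟨v, hv⟩
  obtain ⟨hrec, hself, hpos, hanti, -, -, -, hd0, -, -, -⟩ := hseq.1 lam hl.le m hm1
  obtain ⟨g0, gnn, gle1, gdiff, gup⟩ := gam_bounds hl hseq hm1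
  rw [gen_smul, gen_split hd hK hout (gam lam m) S hSinv A]
  set c := (A ∩ K).card with hc
  set a : ℝ := ((A ∩ Ex).card : ℝ) with ha
  have ha0 : 0 ≤ a := Nat.cast_nonneg _
  have hcm : c ≤ m := Finset.card_le_card Finset.inter_subset_right
  have hTs : Ts lam m = 2 * m * dsum lam m 0 := rfl
  have hmR : (1 : ℝ) ≤ m := by exact_mod_cast hm1
  have hTs0 : 0 < Ts lam m := by
    rw [hTs]
    positivity
  have hS := hS01 A
  have hg := hSgen A
  have he0 := he A
  have hGc := gnn c
  have hGc1 := gle1 c
  have hgm : gam lam m c * gen nb lam S A ≤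
      gam lam m c * (-(lam * a) + (if v ∈ A then 4 * lam ^ 2 else 0) + e A) :=
    mul_le_mul_of_nonneg_left hg hGc
  have hGe : gam lam m c * e A ≤ e A := by nlinarith
  -- `(G c - G (c+1))` part with `a`
  have hApart : (1 - S A) * (lam * (a * (if v ∈ A then (0 : ℝ) else 1) *
      (gam lam m c - gam lam m (c + 1)))) + gam lam m c * (-(lam * a)) ≤ 0 := by
    by_cases hvA : v ∈ A
    · rw [if_pos hvA]
      have : 0 ≤ gam lam m c * (lam * a) := by positivity
      nlinarith
    · rw [if_neg hvA]
      have h1 : gam lam m c - gam lam m (c + 1) ≤ gam lam m c := by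
        linarith [gnn (c + 1)]
      have h2 : lam * (a * 1 * (gam lam m c - gam lam m (c + 1))) ≤
          lam * (a * 1 * gam lam m c) := by gcongr
      have h3 : 0 ≤ lam * (a * 1 * gam lam m c) := by positivity
      have h4 : (1 - S A) * (lam * (a * 1 * (gam lam m c - gam lam m (c + 1)))) ≤
          (1 - S A) * (lam * (a * 1 * gam lam m c)) :=
        mul_le_mul_of_nonneg_left h2 (by linarith)
      have h5 : (1 - S A) * (lam * (a * 1 * gam lam m c)) ≤ 1 * (lam * (a * 1 * gam lam m c)) :=
        mul_le_mul_of_nonneg_right (by linarith) h3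
      linarith
  by_cases hc0 : c = 0
  · -- nothing infected in the hub
    have hne : ¬ (A ∩ K).Nonempty := by
      rw [← Finset.card_pos, ← hc, hc0]
      exact lt_irrefl 0
    have hvA : v ∉ A := fun hcon => by
      have : v ∈ A ∩ K := Finset.mem_inter.2 ⟨hcon, hv⟩
      exact hne ⟨v, this⟩
    rw [if_neg hne, neg_zero, zero_add]
    apply mul_le_mul_of_nonneg_left _ hTs0.le
    rw [if_neg hvA] at hgm hApart ⊢
    rw [hc0] at hgm hApart hGe ⊢
    push_cast
    linarith
  · have hc1 : 1 ≤ c := Nat.one_le_iff_ne_zero.2 hc0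
    have hcR : (1 : ℝ) ≤ c := by exact_mod_cast hc1
    have hcmR : (c : ℝ) ≤ m := by exact_mod_cast hcm
    have hne : (A ∩ K).Nonempty := by
      rw [← Finset.card_pos, ← hc]
      exact hc1
    rw [if_pos hne]
    -- (i)
    have hi : 1 / (c * dsum lam m 0) + lam * gam lam m c ≤
        c * (gam lam m (c - 1) - gam lam m c) -
          lam * (c * ((m : ℝ) - c) * (gam lam m c - gam lam m (c + 1))) := by
      rw [gdiff c hc1 hcm]
      by_cases hcm' : c = m
      · have hg0 : gam lam m c = 0 := by
          unfold gam dsum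
          rw [hcm']
          simp
        rw [hg0, hcm', sub_self, hself]
        apply le_of_eq
        field_simp
        ring
      · have hclt : c < m := lt_of_le_of_ne hcm hcm'
        have h1 := gdiff (c + 1) (by omega) (by omega)
        rw [Nat.add_sub_cancel] at h1
        rw [h1]
        have h2 := gup c hclt
        rw [hrec c hc1 hclt]
        set X := del lam m (c + 1) with hX
        have hX0 : 0 < X := hpos (c + 1) (by omega) (by omega)
        set d0 := dsum lam m 0 with hd0'
        push_cast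
        have h3 : (c : ℝ) * ((1 / (c : ℝ) + lam * ((m : ℝ) - c) * X) / (c * d0)) -
            lam * (c * ((m : ℝ) - c) * (X / (((c : ℝ) + 1) * d0))) =
            1 / (c * d0) + lam * (((m : ℝ) - c) * X / (((c : ℝ) + 1) * d0)) := by
          field_simp
          ring
        rw [h3]
        have h4 := mul_le_mul_of_nonneg_left h2 hl.le
        linarith
    have hfour : gam lam m c * (if v ∈ A then 4 * lam ^ 2 else 0) ≤
        1 / 5 * (lam * gam lam m c) := by
      by_cases hvA : v ∈ A
      · rw [if_pos hvA]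
        have h1 : 4 * lam ^ 2 ≤ 1 / 5 * lam := by nlinarith
        have h2 := mul_le_mul_of_nonneg_left h1 hGc
        linarith
      · rw [if_neg hvA, mul_zero]
        positivity
    have hlG : 0 ≤ lam * gam lam m c := by positivity
    have hq : 0 < 1 / (c * dsum lam m 0) := by positivity
    -- main
    have hmain : (1 - S A) * (c * (gam lam m c - gam lam m (c - 1)) +
        lam * (c * ((m : ℝ) - c) * (gam lam m c - gam lam m (c + 1)))) ≤
        -(3 / 4 * (1 / (c * dsum lam m 0) + lam * gam lam m c)) := by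
      have h1 : c * (gam lam m c - gam lam m (c - 1)) +
          lam * (c * ((m : ℝ) - c) * (gam lam m c - gam lam m (c + 1))) ≤
          -(1 / (c * dsum lam m 0) + lam * gam lam m c) := by linarith
      have h2 := mul_le_mul_of_nonneg_left h1 (by linarith : (0 : ℝ) ≤ 1 - S A)
      have h3 : 3 / 4 * (1 / (c * dsum lam m 0) + lam * gam lam m c) ≤
          (1 - S A) * (1 / (c * dsum lam m 0) + lam * gam lam m c) :=
        mul_le_mul_of_nonneg_right (by linarith) (by linarith)
      linarith
    have htot : gam lam m c * gen nb lam S A +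
        (1 - S A) * (c * (gam lam m c - gam lam m (c - 1)) +
        lam * ((c * ((m : ℝ) - c) + a * (if v ∈ A then 0 else 1)) *
          (gam lam m c - gam lam m (c + 1)))) ≤ -(3 / 4 * (1 / (c * dsum lam m 0))) + e A := by
      have e1 : (1 - S A) * (c * (gam lam m c - gam lam m (c - 1)) +
          lam * ((c * ((m : ℝ) - c) + a * (if v ∈ A then 0 else 1)) *
          (gam lam m c - gam lam m (c + 1)))) =
          (1 - S A) * (c * (gam lam m c - gam lam m (c - 1)) +
            lam * (c * ((m : ℝ) - c) * (gam lam m c - gam lam m (c + 1)))) +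
          (1 - S A) * (lam * (a * (if v ∈ A then (0 : ℝ) else 1) *
            (gam lam m c - gam lam m (c + 1)))) := by ring
      rw [e1]
      have e2 : gam lam m c * (-(lam * a) + (if v ∈ A then 4 * lam ^ 2 else 0) + e A) =
          gam lam m c * (-(lam * a)) + gam lam m c * (if v ∈ A then 4 * lam ^ 2 else 0) +
            gam lam m c * e A := by ring
      rw [e2] at hgm
      linarith
    have hfin := mul_le_mul_of_nonneg_left htot hTs0.le
    refine hfin.trans ?_
    have e3 : Ts lam m * (3 / 4 * (1 / (c * dsum lam m 0))) = 3 / 2 * (m / c) := by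
      rw [hTs]
      field_simp
      ring
    have e4 : (1 : ℝ) ≤ m / c := (one_le_div (by linarith)).2 hcmR
    have e5 : Ts lam m * (-(3 / 4 * (1 / (c * dsum lam m 0))) + e A) =
        -(Ts lam m * (3 / 4 * (1 / (c * dsum lam m 0)))) + Ts lam m * e A := by ring
    rw [e5, e3]
    linarith

end Pool.Agent.W397.CPHup
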