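import Pool.Agent.W845.CP.Base2

/-! CP-SEQ: the hub sequences (part of helper845's project for MP_2b201f_pr). -/

set_option autoImplicit false

namespace Pool.Agent.W397.CPSeq

open Pool.Agent.W845.CP Finset

lemma del_rec (lam : ℝ) {m k : ℕ} (hk : 1 ≤ k) (hkm : k < m) :
    del lam m k = 1 / (k : ℝ) + lam * ((m : ℝ) - k) * del lam m (k + 1) := by
  obtain ⟨d, rfl⟩ : ∃ d, m = k + (d + 1) := ⟨m - k - 1, by omega⟩
  unfold del
  have h1 : k + (d + 1) - k + 1 = (d + 1) + 1 := by omega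
  have h2 : k + (d + 1) - (k + 1) + 1 = d + 1 := by omega
  have h3 : k + (d + 1) - k = d + 1 := by omega
  have h4 : k + (d + 1) - (k + 1) = d := by omega
  rw [h1, h2, h3, h4, Finset.sum_range_succ', Finset.mul_sum, add_comm]
  have hk0 : (0 : ℝ) < k := by exact_mod_cast hk
  congr 1
  · simp
  · refine Finset.sum_congr rfl (fun i _ => ?_)
    rw [Nat.succ_descFactorial_succ]
    push_cast
    have : (0 : ℝ) < (k : ℝ) + (i + 1) := by positivity
    have h5 : (k : ℝ) + 1 + i = (k : ℝ) + (i + 1) := by ring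
    rw [h5]
    field_simp
    ring

lemma del_self (lam : ℝ) (m : ℕ) : del lam m m = 1 / (m : ℝ) := by
  unfold del
  simp

lemma del_pos {lam : ℝ} (hl : 0 ≤ lam) {m k : ℕ} (hk : 1 ≤ k) : 0 < del lam m k := by
  unfold del
  have hk0 : (0 : ℝ) < k := by exact_mod_cast hk
  rw [Finset.sum_range_succ']
  have h1 : (0 : ℝ) < lam ^ 0 * (((m - k).descFactorial 0 : ℕ) : ℝ) / ((k : ℝ) + (0 : ℕ)) := by
    simp
    exact hk
  have h2 : (0 : ℝ) ≤ ∑ i ∈ range (m - k),
      lam ^ (i + 1) * (((m - k).descFactorial (i + 1) : ℕ) : ℝ) / ((k : ℝ) + ((i + 1 : ℕ) : ℝ)) :=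
    Finset.sum_nonneg (fun i _ => by positivity)
  linarith

/-- the auxiliary claim -/
lemma del_aux {lam : ℝ} (hl : 0 ≤ lam) {m : ℕ} : ∀ d k : ℕ, k + (d + 1) = m → 1 ≤ k →
    lam * ((m : ℝ) - k) < 1 →
    (1 - lam * ((m : ℝ) - k)) * k * del lam m (k + 1) ≤ 1 := by
  intro d
  induction d with
  | zero =>
    intro k hkm hk ht
    have h1 : k + 1 = m := by omega
    rw [h1, del_self]
    have hm : (m : ℝ) = k + 1 := by
      rw [← h1]
      push_cast
      ring
    have hk0 : (0 : ℝ) < k := by exact_mod_cast hk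
    rw [hm]
    have : (1 - lam * ((k : ℝ) + 1 - k)) * k * (1 / (k + 1)) = (1 - lam) * k / (k + 1) := by ring
    rw [this, div_le_one (by positivity)]
    nlinarith
  | succ d ih =>
    intro k hkm hk ht
    have hk0 : (0 : ℝ) < k := by exact_mod_cast hk
    have hm : (m : ℝ) = k + (d + 1 + 1) := by
      rw [← hkm]
      push_cast
      ring
    set t : ℝ := lam * ((m : ℝ) - ((k + 1 : ℕ) : ℝ)) with htd
    have ht1 : lam * ((m : ℝ) - k) = t + lam := by
      rw [htd]
      push_cast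
      ring
    have ht0 : 0 ≤ t := by
      rw [htd, hm]
      push_cast
      apply mul_nonneg hl
      have : (0 : ℝ) ≤ d := Nat.cast_nonneg d
      linarith
    rw [ht1] at ht ⊢
    have ht2 : t < 1 := by linarith
    have h1 := ih (k + 1) (by omega) (by omega) ht2
    have h2 := del_rec lam (m := m) (k := k + 1) (by omega) (by omega)
    rw [← htd] at h1 h2
    push_cast at h1 h2
    rw [h2]
    set D := del lam m (k + 1 + 1) with hD
    have hD0 : 0 < D := del_pos hl (by omega)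
    have hk1 : (0 : ℝ) < k + 1 := by positivity
    -- (1-t)(k+1) D ≤ 1
    have h3 : (1 - t) * (1 / ((k : ℝ) + 1) + t * D) ≤ 1 / (k + 1) := by
      have h4 : (1 - t) * D ≤ 1 / (k + 1) := by
        rw [le_div_iff₀ hk1]
        linarith
      have h5 : t * ((1 - t) * D) ≤ t * (1 / (k + 1)) := mul_le_mul_of_nonneg_left h4 ht0
      have : (1 - t) * (1 / ((k : ℝ) + 1) + t * D) =
          (1 - t) * (1 / (k + 1)) + t * ((1 - t) * D) := by ring
      rw [this]
      linarith
    have hX : 0 ≤ 1 / ((k : ℝ) + 1) + t * D := by positivity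
    calc (1 - (t + lam)) * k * (1 / ((k : ℝ) + 1) + t * D) ≤
        (1 - t) * k * (1 / ((k : ℝ) + 1) + t * D) := by
          apply mul_le_mul_of_nonneg_right _ hX
          apply mul_le_mul_of_nonneg_right _ hk0.le
          linarith
      _ = k * ((1 - t) * (1 / ((k : ℝ) + 1) + t * D)) := by ring
      _ ≤ k * (1 / (k + 1)) := mul_le_mul_of_nonneg_left h3 hk0.le
      _ ≤ 1 := by
          rw [mul_one_div, div_le_one hk1]
          linarith

lemma del_anti {lam : ℝ} (hl : 0 ≤ lam) {m k : ℕ} (hk : 1 ≤ k) (hkm : k < m) :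
    del lam m (k + 1) ≤ del lam m k := by
  have hk0 : (0 : ℝ) < k := by exact_mod_cast hk
  have h1 := del_rec lam hk hkm
  have h2 : 0 < del lam m (k + 1) := del_pos hl (by omega)
  by_cases ha : 1 ≤ lam * ((m : ℝ) - k)
  · rw [h1]
    have h3 : 0 < 1 / (k : ℝ) := by positivity
    have h4 : 1 * del lam m (k + 1) ≤ lam * ((m : ℝ) - k) * del lam m (k + 1) :=
      mul_le_mul_of_nonneg_right ha h2.le
    linarith
  · push Not at ha
    obtain ⟨d, hd⟩ : ∃ d, k + (d + 1) = m := ⟨m - k - 1, by omega⟩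
    have h3 := del_aux hl d k hd hk ha
    have h4 : (1 - lam * ((m : ℝ) - k)) * del lam m (k + 1) ≤ 1 / k := by
      rw [le_div_iff₀ hk0]
      linarith
    rw [h1]
    linarith

lemma del_anti' {lam : ℝ} (hl : 0 ≤ lam) {m : ℕ} : ∀ d k : ℕ, 1 ≤ k → k + d ≤ m →
    del lam m (k + d) ≤ del lam m k := by
  intro d
  induction d with
  | zero =>
    intro k _ _
    exact le_rfl
  | succ d ih =>
    intro k hk hkd
    have h1 := ih k hk (by omega)
    have h2 := del_anti (lam := lam) (m := m) (k := k + d) hl (by omega) (by omega)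
    exact h2.trans h1

lemma del_le_TT {lam : ℝ} (hl : 0 ≤ lam) {m j : ℕ} (hj : 1 ≤ j) (hjm : j ≤ m) :
    del lam m j ≤ TT lam m := by
  obtain ⟨d, rfl⟩ : ∃ d, j = 1 + d := ⟨j - 1, by omega⟩
  exact del_anti' hl d 1 le_rfl hjm

lemma TT_eq (lam : ℝ) (d : ℕ) : TT lam (d + 1) =
    ∑ i ∈ range (d + 1), lam ^ i * ((d.descFactorial i : ℕ) : ℝ) / (1 + (i : ℝ)) := by
  unfold TT del
  simp

lemma one_le_TT {lam : ℝ} (hl : 0 ≤ lam) {m : ℕ} (hm : 1 ≤ m) : 1 ≤ TT lam m := by
  obtain ⟨d, rfl⟩ : ∃ d, m = d + 1 := ⟨m - 1, by omega⟩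
  rw [TT_eq, Finset.sum_range_succ']
  have h2 : (0 : ℝ) ≤ ∑ i ∈ range d,
      lam ^ (i + 1) * (((d.descFactorial (i + 1) : ℕ)) : ℝ) / (1 + ((i + 1 : ℕ) : ℝ)) :=
    Finset.sum_nonneg (fun i _ => by positivity)
  have h3 : lam ^ 0 * ((d.descFactorial 0 : ℕ) : ℝ) / (1 + ((0 : ℕ) : ℝ)) = 1 := by simp
  rw [h3]
  linarith

lemma TT_mono_m {lam : ℝ} (hl : 0 ≤ lam) {m : ℕ} (hm : 1 ≤ m) : TT lam m ≤ TT lam (m + 1) := by
  obtain ⟨d, rfl⟩ : ∃ d, m = d + 1 := ⟨m - 1, by omega⟩
  rw [TT_eq, TT_eq, Finset.sum_range_succ _ (d + 1)]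
  have h1 : ∑ i ∈ range (d + 1), lam ^ i * ((d.descFactorial i : ℕ) : ℝ) / (1 + (i : ℝ)) ≤
      ∑ i ∈ range (d + 1), lam ^ i * (((d + 1).descFactorial i : ℕ) : ℝ) / (1 + (i : ℝ)) := by
    refine Finset.sum_le_sum (fun i _ => ?_)
    apply div_le_div_of_nonneg_right _ (by positivity)
    apply mul_le_mul_of_nonneg_left _ (by positivity)
    exact_mod_cast Nat.descFactorial_le i (Nat.le_succ d)
  have h2 : (0 : ℝ) ≤ lam ^ (d + 1) * (((d + 1).descFactorial (d + 1) : ℕ) : ℝ) /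
      (1 + ((d + 1 : ℕ) : ℝ)) := by positivity
  linarith

lemma TT_succ_le {lam : ℝ} (hl : 0 ≤ lam) {m : ℕ} (hm : 1 ≤ m) :
    TT lam (m + 1) ≤ 1 + lam * m * TT lam m := by
  obtain ⟨d, rfl⟩ : ∃ d, m = d + 1 := ⟨m - 1, by omega⟩
  rw [TT_eq, TT_eq, Finset.sum_range_succ', Finset.mul_sum]
  have h3 : lam ^ 0 * (((d + 1).descFactorial 0 : ℕ) : ℝ) / (1 + ((0 : ℕ) : ℝ)) = 1 := by simp
  rw [h3, add_comm]
  have h1 : ∑ i ∈ range (d + 1),
      lam ^ (i + 1) * (((d + 1).descFactorial (i + 1) : ℕ) : ℝ) / (1 + ((i + 1 : ℕ) : ℝ)) ≤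
      ∑ i ∈ range (d + 1), lam * ((d + 1 : ℕ) : ℝ) *
        (lam ^ i * ((d.descFactorial i : ℕ) : ℝ) / (1 + (i : ℝ))) := by
    refine Finset.sum_le_sum (fun i _ => ?_)
    rw [Nat.succ_descFactorial_succ]
    have e1 : lam * ((d + 1 : ℕ) : ℝ) * (lam ^ i * ((d.descFactorial i : ℕ) : ℝ) / (1 + (i : ℝ))) =
        lam ^ (i + 1) * (((d + 1) * d.descFactorial i : ℕ) : ℝ) / (1 + (i : ℝ)) := by
      push_cast
      ring
    rw [e1]
    apply div_le_div_of_nonneg_left (by positivity) (by positivity)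
    push_cast
    linarith
  linarith

lemma dsum_eq (lam : ℝ) (m : ℕ) : dsum lam m 0 = ∑ j ∈ Ioc 0 m, del lam m j / (j : ℝ) := rfl

lemma dsum_pos {lam : ℝ} (hl : 0 ≤ lam) {m : ℕ} (hm : 1 ≤ m) : 0 < dsum lam m 0 := by
  rw [dsum_eq]
  apply Finset.sum_pos
  · intro j hj
    rw [Finset.mem_Ioc] at hj
    have : (0 : ℝ) < j := by exact_mod_cast hj.1
    exact div_pos (del_pos hl hj.1) this
  · exact ⟨1, Finset.mem_Ioc.2 ⟨Nat.one_pos, hm⟩⟩

lemma Ts_le {lam : ℝ} (hl : 0 ≤ lam) {m : ℕ} :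
    Ts lam m ≤ 2 * (m : ℝ) ^ 2 * TT lam m := by
  unfold Ts
  rw [dsum_eq]
  have h1 : ∀ j ∈ Ioc 0 m, del lam m j / (j : ℝ) ≤ TT lam m := by
    intro j hj
    rw [Finset.mem_Ioc] at hj
    have hj0 : (1 : ℝ) ≤ j := by exact_mod_cast hj.1
    have h2 := del_le_TT (m := m) hl hj.1 hj.2
    have h3 : 0 < del lam m j := del_pos hl hj.1
    exact (div_le_self h3.le hj0).trans h2
  have h2 := Finset.sum_le_card_nsmul _ _ _ h1
  rw [Nat.card_Ioc, nsmul_eq_mul, Nat.sub_zero] at h2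
  calc 2 * (m : ℝ) * ∑ j ∈ Ioc 0 m, del lam m j / (j : ℝ) ≤ 2 * (m : ℝ) * (m * TT lam m) :=
        mul_le_mul_of_nonneg_left h2 (by positivity)
    _ = _ := by ring

lemma del_mono_lam {lam lam' : ℝ} (hl : 0 ≤ lam) (hll : lam ≤ lam') (m k : ℕ) :
    del lam m k ≤ del lam' m k := by
  unfold del
  refine Finset.sum_le_sum (fun i _ => ?_)
  apply div_le_div_of_nonneg_right _ (by positivity)
  apply mul_le_mul_of_nonneg_right _ (by positivity)
  exact pow_le_pow_left₀ hl hll i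

lemma Ts_mono_lam {lam lam' : ℝ} (hl : 0 ≤ lam) (hll : lam ≤ lam') (m : ℕ) :
    Ts lam m ≤ Ts lam' m := by
  unfold Ts
  rw [dsum_eq, dsum_eq]
  apply mul_le_mul_of_nonneg_left _ (by positivity)
  refine Finset.sum_le_sum (fun j _ => ?_)
  exact div_le_div_of_nonneg_right (del_mono_lam hl hll m j) (by positivity)

lemma del5 {lam : ℝ} (hl : 0 ≤ lam) {m : ℕ} (hm : 8 ≤ m) :
    (lam * m / 2) ^ 4 * del lam m 5 ≤ TT lam m := by
  have hmR : (8 : ℝ) ≤ m := by exact_mod_cast hm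
  have step : ∀ k : ℕ, 1 ≤ k → k ≤ 4 → lam * m / 2 * del lam m (k + 1) ≤ del lam m k := by
    intro k hk1 hk4
    have hk4R : (k : ℝ) ≤ 4 := by exact_mod_cast hk4
    have hk0 : (0 : ℝ) < k := by exact_mod_cast hk1
    rw [del_rec lam (m := m) (k := k) hk1 (by omega)]
    have h2 : 0 < del lam m (k + 1) := del_pos hl (by omega)
    have h3 : lam * m / 2 ≤ lam * ((m : ℝ) - k) := by nlinarith
    have h4 := mul_le_mul_of_nonneg_right h3 h2.le
    have h5 : 0 < 1 / (k : ℝ) := by positivity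
    linarith
  have h1 := step 1 (by norm_num) (by norm_num)
  have h2 := step 2 (by norm_num) (by norm_num)
  have h3 := step 3 (by norm_num) (by norm_num)
  have h4 := step 4 (by norm_num) (by norm_num)
  norm_num at h1 h2 h3 h4
  have hc : 0 ≤ lam * m / 2 := by positivity
  set c := lam * m / 2 with hcd
  show c ^ 4 * del lam m 5 ≤ del lam m 1
  calc c ^ 4 * del lam m 5 = c * (c * (c * (c * del lam m 5))) := by ring
    _ ≤ c * (c * (c * del lam m 4)) := by gcongr
    _ ≤ c * (c * del lam m 3) := by gcongr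
    _ ≤ c * del lam m 2 := by gcongr
    _ ≤ _ := h1

lemma growth {lam lam' : ℝ} (hl : 0 < lam) (hll : lam ≤ lam') {m : ℕ} (hm : 1 ≤ m)
    (h8 : 8 ≤ lam' * m) :
    TT lam m ≤ ((1 / 2 : ℝ) ^ (m / 4) + (lam / lam') ^ (m / 4)) * TT lam' m := by
  obtain ⟨d, rfl⟩ : ∃ d, m = d + 1 := ⟨m - 1, by omega⟩
  have hl' : 0 < lam' := lt_of_lt_of_le hl hll
  set q := (d + 1) / 4 with hq
  have hTT' := one_le_TT hl'.le (m := d + 1) hm
  rw [TT_eq]
  set t : ℝ → ℕ → ℝ := fun L i => L ^ i * ((d.descFactorial i : ℕ) : ℝ) / (1 + (i : ℝ)) with ht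
  have htnn : ∀ L : ℝ, 0 ≤ L → ∀ i, 0 ≤ t L i := fun L hL i => by
    rw [ht]
    positivity
  have hqd : q ≤ d + 1 := Nat.div_le_self _ _
  have hr : lam / lam' ≤ 1 := (div_le_one hl').2 hll
  have hr0 : 0 ≤ lam / lam' := by positivity
  -- large indices
  have hlarge : ∀ i, q ≤ i → t lam i ≤ (lam / lam') ^ q * t lam' i := by
    intro i hi
    rw [ht]
    simp only
    have h1 : lam ^ i ≤ (lam / lam') ^ q * lam' ^ i := by
      have e1 : lam ^ i = (lam / lam') ^ i * lam' ^ i := by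
        rw [← mul_pow, div_mul_cancel₀ _ hl'.ne']
      rw [e1]
      apply mul_le_mul_of_nonneg_right _ (by positivity)
      exact pow_le_pow_of_le_one hr0 hr hi
    calc lam ^ i * ((d.descFactorial i : ℕ) : ℝ) / (1 + (i : ℝ)) ≤
        ((lam / lam') ^ q * lam' ^ i) * ((d.descFactorial i : ℕ) : ℝ) / (1 + (i : ℝ)) := by
          gcongr
      _ = _ := by ring
  -- small indices
  have hTTge : ∀ i, i ≤ d → t lam' i ≤ TT lam' (d + 1) := by
    intro i hi
    rw [TT_eq]
    exact Finset.single_le_sum (f := t lam') (fun j _ => htnn lam' hl'.le j)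
      (Finset.mem_range.2 (by omega))
  have hsmallsum : ∑ i ∈ range q, t lam i ≤ (1 / 2 : ℝ) ^ q * TT lam' (d + 1) := by
    rcases Nat.eq_zero_or_pos q with h0 | hqpos
    · rw [h0]
      simp
      linarith
    have hstep : ∀ i, i < 2 * q → 2 * t lam' i ≤ t lam' (i + 1) := by
      intro i hi
      rw [ht]
      simp only
      have hid : i < d := by omega
      have e1 : d.descFactorial (i + 1) = (d - i) * d.descFactorial i :=
        Nat.descFactorial_succ d i
      rw [e1]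
      have e2 : (((d - i) * d.descFactorial i : ℕ) : ℝ) =
          ((d : ℝ) - i) * ((d.descFactorial i : ℕ) : ℝ) := by
        rw [Nat.cast_mul, Nat.cast_sub hid.le]
      rw [e2]
      have h4i : (4 * (i : ℝ)) + 4 ≤ 2 * (d + 1) := by
        have : 4 * i + 4 ≤ 2 * (d + 1) := by omega
        exact_mod_cast this
      have hi0 : (0 : ℝ) ≤ i := Nat.cast_nonneg i
      -- ratio
      have hkey : 2 * (1 + ((i + 1 : ℕ) : ℝ)) ≤ lam' * ((d : ℝ) - i) * (1 + (i : ℝ)) := by
        push_cast at h8 ⊢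
        have h5 : 4 ≤ lam' * ((d : ℝ) - i) := by
          have h6 : ((d : ℝ) + 1) / 2 ≤ (d : ℝ) - i := by linarith
          have h7 := mul_le_mul_of_nonneg_left h6 hl'.le
          linarith
        have h6 : 4 * (1 + (i : ℝ)) ≤ lam' * ((d : ℝ) - i) * (1 + (i : ℝ)) :=
          mul_le_mul_of_nonneg_right h5 (by positivity)
        linarith
      have hX : 0 ≤ lam' ^ i * ((d.descFactorial i : ℕ) : ℝ) := by positivity
      have h1 : 2 * (lam' ^ i * ((d.descFactorial i : ℕ) : ℝ) / (1 + (i : ℝ))) =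
          (lam' ^ i * ((d.descFactorial i : ℕ) : ℝ)) * (2 / (1 + (i : ℝ))) := by ring
      have h2 : lam' ^ (i + 1) * (((d : ℝ) - i) * ((d.descFactorial i : ℕ) : ℝ)) /
          (1 + ((i + 1 : ℕ) : ℝ)) = (lam' ^ i * ((d.descFactorial i : ℕ) : ℝ)) *
          (lam' * ((d : ℝ) - i) / (1 + ((i + 1 : ℕ) : ℝ))) := by
        rw [pow_succ]
        ring
      rw [h1, h2]
      apply mul_le_mul_of_nonneg_left _ hX
      rw [div_le_div_iff₀ (by positivity) (by positivity)]
      exact hkey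
    have hiter : ∀ j, j ≤ 2 * q → 2 ^ j * t lam' (2 * q - j) ≤ t lam' (2 * q) := by
      intro j
      induction j with
      | zero =>
        intro _
        simp
      | succ j ih =>
        intro hj
        have h1 := ih (by omega)
        have h2 := hstep (2 * q - (j + 1)) (by omega)
        have h3 : 2 * q - (j + 1) + 1 = 2 * q - j := by omega
        rw [h3] at h2
        calc (2 : ℝ) ^ (j + 1) * t lam' (2 * q - (j + 1)) =
            2 ^ j * (2 * t lam' (2 * q - (j + 1))) := by ring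
          _ ≤ 2 ^ j * t lam' (2 * q - j) := mul_le_mul_of_nonneg_left h2 (by positivity)
          _ ≤ _ := h1
    have hb : ∀ i, i < q → t lam i ≤ (1 / 2 : ℝ) ^ q * (1 / 2) ^ (q - i) * TT lam' (d + 1) := by
      intro i hi
      have h1 := hiter (2 * q - i) (by omega)
      have h2 : 2 * q - (2 * q - i) = i := by omega
      rw [h2] at h1
      have h3 : t lam i ≤ t lam' i := by
        rw [ht]
        simp only
        gcongr
      have h4 := hTTge (2 * q) (by omega)
      have h5 : (2 : ℝ) ^ (2 * q - i) = 2 ^ q * 2 ^ (q - i) := by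
        rw [← pow_add]
        congr 1
        omega
      rw [h5] at h1
      have h6 : ((1 / 2 : ℝ) ^ q * (1 / 2) ^ (q - i)) * (2 ^ q * 2 ^ (q - i)) = 1 := by
        rw [mul_mul_mul_comm, ← mul_pow, ← mul_pow]
        norm_num
      calc t lam i ≤ t lam' i := h3
        _ = ((1 / 2 : ℝ) ^ q * (1 / 2) ^ (q - i)) * (2 ^ q * 2 ^ (q - i) * t lam' i) := by
            rw [← mul_assoc, h6, one_mul]
        _ ≤ ((1 / 2 : ℝ) ^ q * (1 / 2) ^ (q - i)) * TT lam' (d + 1) :=
            mul_le_mul_of_nonneg_left (h1.trans h4) (by positivity)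
    have hgeo : ∑ i ∈ range q, ((1 / 2 : ℝ)) ^ (q - i) ≤ 1 := by
      have h1 : ∀ n : ℕ, ∑ i ∈ range n, ((1 / 2 : ℝ)) ^ (n - i) = 1 - (1 / 2) ^ n := by
        intro n
        induction n with
        | zero => simp
        | succ n ih =>
          rw [Finset.sum_range_succ]
          have : ∑ i ∈ range n, ((1 / 2 : ℝ)) ^ (n + 1 - i) =
              (1 / 2) * ∑ i ∈ range n, ((1 / 2 : ℝ)) ^ (n - i) := by
            rw [Finset.mul_sum]
            refine Finset.sum_congr rfl (fun i hi => ?_)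
            rw [Finset.mem_range] at hi
            rw [show n + 1 - i = (n - i) + 1 by omega, pow_succ]
            ring
          rw [this, ih, show n + 1 - n = 1 by omega]
          ring
      rw [h1]
      have : (0 : ℝ) < (1 / 2) ^ q := by positivity
      linarith
    calc ∑ i ∈ range q, t lam i ≤
        ∑ i ∈ range q, ((1 / 2 : ℝ) ^ q * (1 / 2) ^ (q - i) * TT lam' (d + 1)) :=
          Finset.sum_le_sum (fun i hi => hb i (Finset.mem_range.1 hi))
      _ = (1 / 2 : ℝ) ^ q * TT lam' (d + 1) * ∑ i ∈ range q, ((1 / 2 : ℝ)) ^ (q - i) := by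
          rw [Finset.mul_sum]
          refine Finset.sum_congr rfl (fun i _ => ?_)
          ring
      _ ≤ (1 / 2 : ℝ) ^ q * TT lam' (d + 1) * 1 :=
          mul_le_mul_of_nonneg_left hgeo (by positivity)
      _ = _ := mul_one _
  have hlargesum : ∑ i ∈ Ico q (d + 1), t lam i ≤ (lam / lam') ^ q * TT lam' (d + 1) := by
    calc ∑ i ∈ Ico q (d + 1), t lam i ≤ ∑ i ∈ Ico q (d + 1), (lam / lam') ^ q * t lam' i :=
          Finset.sum_le_sum (fun i hi => hlarge i (Finset.mem_Ico.1 hi).1)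
      _ = (lam / lam') ^ q * ∑ i ∈ Ico q (d + 1), t lam' i := by rw [Finset.mul_sum]
      _ ≤ (lam / lam') ^ q * TT lam' (d + 1) := by
          apply mul_le_mul_of_nonneg_left _ (by positivity)
          rw [TT_eq]
          apply Finset.sum_le_sum_of_subset_of_nonneg
          · intro i hi
            rw [Finset.mem_Ico] at hi
            exact Finset.mem_range.2 hi.2
          · intro i _ _
            exact htnn lam' hl'.le i
  rw [← Finset.sum_range_add_sum_Ico _ hqd]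
  linarith

theorem seq : St_SEQ := by
  refine ⟨fun lam hl m hm => ⟨fun k hk hkm => del_rec lam hk hkm, del_self lam m,
    fun k hk _ => del_pos hl hk, fun k hk hkm => del_anti hl hk hkm, one_le_TT hl hm,
    TT_mono_m hl hm, TT_succ_le hl hm, dsum_pos hl hm, Ts_le hl,
    fun lam' hll => ⟨del_mono_lam hl hll m 1, Ts_mono_lam hl hll m⟩, fun h8 => del5 hl h8⟩,
    fun lam lam' hl hll m hm h8 => growth hl hll hm h8⟩

end Pool.Agent.W397.CPSeq
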